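import Mathlib
import Pool.Agent.H1.CM.Targets1

/-!
# Module IND: induction over ideals of an Artinian local ring
-/

namespace Pool.Agent.H1.CM

open IsLocalRing

theorem ind : T_IND := by
  intro A _ _ _ Q hm hstep
  classical
  have hne : ({J : Ideal A | J ≤ maximalIdeal A ∧ Q J}).Nonempty :=
    ⟨maximalIdeal A, le_rfl, hm⟩
  obtain ⟨J, ⟨hJm, hQJ⟩, hmin⟩ := IsArtinian.set_has_minimal _ hne
  by_cases hJ : J = ⊥
  · rwa [← hJ]
  · exfalso
    have hfg : J.FG := IsNoetherian.noetherian J
    have hlt : maximalIdeal A • J < J := by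
      refine lt_of_le_of_ne (Submodule.smul_le_right) ?_
      intro h
      apply hJ
      refine Submodule.eq_bot_of_le_smul_of_le_jacobson_bot (maximalIdeal A) J hfg (le_of_eq h.symm) ?_
      rw [IsLocalRing.jacobson_eq_maximalIdeal _ bot_ne_top]
    have hne2 : ({K : Ideal A | maximalIdeal A • J ≤ K ∧ K < J}).Nonempty :=
      ⟨_, le_rfl, hlt⟩
    obtain ⟨K, ⟨hK1, hK2⟩, hmax⟩ := set_has_maximal_iff_noetherian.mpr
      (inferInstance : IsNoetherian A A) _ hne2
    obtain ⟨t, htJ, htK⟩ := SetLike.exists_of_lt hK2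
    have hsup : K ⊔ Ideal.span {t} ≤ J :=
      sup_le hK2.le ((Ideal.span_singleton_le_iff_mem J).mpr htJ)
    have hlt2 : K < K ⊔ Ideal.span {t} := by
      refine lt_of_le_of_ne le_sup_left ?_
      intro h
      apply htK
      rw [h]
      exact Ideal.mem_sup_right (Ideal.mem_span_singleton_self t)
    have heq : K ⊔ Ideal.span {t} = J := by
      by_contra hne3
      exact hmax _ ⟨hK1.trans le_sup_left, lt_of_le_of_ne hsup hne3⟩ hlt2
    have hQK : Q K := by
      refine hstep K t (hK2.le.trans hJm) (hJm htJ) htK ?_ ?_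
      · intro m hmm
        exact hK1 (Submodule.smul_mem_smul hmm htJ)
      · rw [heq]; exact hQJ
    exact hmin K ⟨hK2.le.trans hJm, hQK⟩ hK2

end Pool.Agent.H1.CM
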