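import Mathlib
import Pool.Agent.H1.CM.Targets1

/-!
# Modules NORMX, NORMU: normalisation of the pair `a, c`
-/

namespace Pool.Agent.H1.CM

open IsLocalRing MvPolynomial

namespace NORM

section coef

variable {A : Type} [CommRing A]

lemma cf_add (p q : MvPolynomial (Fin 3) A) (i j l : ℕ) :
    cf (p + q) i j l = cf p i j l + cf q i j l := by simp [cf]

lemma cf_sub (p q : MvPolynomial (Fin 3) A) (i j l : ℕ) :
    cf (p - q) i j l = cf p i j l - cf q i j l := by simp [cf]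

lemma cf_mono (a : A) (i' j' l' i j l : ℕ) :
    cf (C a * X 0 ^ i' * X 1 ^ j' * X 2 ^ l' : MvPolynomial (Fin 3) A) i j l
      = if i' = i ∧ j' = j ∧ l' = l then a else 0 := by
  have h : (C a * X 0 ^ i' * X 1 ^ j' * X 2 ^ l' : MvPolynomial (Fin 3) A)
      = monomial (Finsupp.equivFunOnFinite.symm ![i', j', l']) a := by
    rw [C_apply, X_pow_eq_monomial, X_pow_eq_monomial, X_pow_eq_monomial, monomial_mul,
      monomial_mul, monomial_mul, mul_one, mul_one, mul_one]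
    have e : (0 : Fin 3 →₀ ℕ) + Finsupp.single 0 i' + Finsupp.single 1 j' + Finsupp.single 2 l'
        = Finsupp.equivFunOnFinite.symm ![i', j', l'] := by
      apply Finsupp.ext
      intro r
      fin_cases r <;> simp [Finsupp.equivFunOnFinite]
    rw [e]
  rw [h, cf, coeff_monomial]
  congr 1
  rw [eq_iff_iff, Equiv.apply_eq_iff_eq]
  constructor
  · intro h
    exact ⟨congrFun h 0, congrFun h 1, congrFun h 2⟩
  · rintro ⟨rfl, rfl, rfl⟩
    rfl

lemma coeff_eq_cf (p : MvPolynomial (Fin 3) A) (m : Fin 3 →₀ ℕ) :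
    p.coeff m = cf p (m 0) (m 1) (m 2) := by
  unfold cf
  congr 1
  ext r
  fin_cases r <;> simp [Finsupp.equivFunOnFinite]

lemma cf_hom {p : MvPolynomial (Fin 3) A} {n : ℕ} (hp : p.IsHomogeneous n) {i j l : ℕ}
    (h : i + j + l ≠ n) : cf p i j l = 0 := by
  unfold cf
  apply hp.coeff_eq_zero
  intro h'
  apply h
  rw [← h']
  simp [Finsupp.degree_eq_sum, Fin.sum_univ_three, Finsupp.equivFunOnFinite]

lemma ext_cf {p q : MvPolynomial (Fin 3) A} (h : ∀ i j l, cf p i j l = cf q i j l) : p = q := by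
  ext m
  rw [coeff_eq_cf, coeff_eq_cf, h]

/-- Expansion of a quadratic form. -/
lemma quad_exp {s : MvPolynomial (Fin 3) A} (hs : s.IsHomogeneous 2) :
    s = C (cf s 2 0 0) * X 0 ^ 2 * X 1 ^ 0 * X 2 ^ 0 + C (cf s 1 1 0) * X 0 ^ 1 * X 1 ^ 1 * X 2 ^ 0
      + C (cf s 0 2 0) * X 0 ^ 0 * X 1 ^ 2 * X 2 ^ 0 + C (cf s 1 0 1) * X 0 ^ 1 * X 1 ^ 0 * X 2 ^ 1
      + C (cf s 0 1 1) * X 0 ^ 0 * X 1 ^ 1 * X 2 ^ 1
      + C (cf s 0 0 2) * X 0 ^ 0 * X 1 ^ 0 * X 2 ^ 2 := by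
  apply ext_cf
  intro i j l
  simp only [cf_add, cf_mono]
  by_cases h : i + j + l = 2
  · have hi : i ≤ 2 := by omega
    have hj : j ≤ 2 := by omega
    have hl : l = 2 - i - j := by omega
    subst hl
    interval_cases i <;> interval_cases j <;> first | omega | simp
  · rw [cf_hom hs h]
    have e : ∀ a b c : ℕ, a + b + c = 2 → ¬ (a = i ∧ b = j ∧ c = l) := by
      rintro a b c habc ⟨rfl, rfl, rfl⟩
      exact h habc
    rw [if_neg (e _ _ _ rfl), if_neg (e _ _ _ rfl), if_neg (e _ _ _ rfl), if_neg (e _ _ _ rfl),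
      if_neg (e _ _ _ rfl), if_neg (e _ _ _ rfl)]
    simp

end coef

section core

variable {A : Type} [CommRing A]

lemma lsub_add (L : Fin 3 → Fin 3 → A) (p q : MvPolynomial (Fin 3) A) :
    lsub L (p + q) = lsub L p + lsub L q := by simp [lsub]

lemma lsub_mul (L : Fin 3 → Fin 3 → A) (p q : MvPolynomial (Fin 3) A) :
    lsub L (p * q) = lsub L p * lsub L q := by simp [lsub]

lemma lsub_pow (L : Fin 3 → Fin 3 → A) (p : MvPolynomial (Fin 3) A) (n : ℕ) :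
    lsub L (p ^ n) = lsub L p ^ n := by simp [lsub]

lemma lsub_C (L : Fin 3 → Fin 3 → A) (a : A) : lsub L (C a) = C a := by simp [lsub]

lemma lsub_sub (L : Fin 3 → Fin 3 → A) (p q : MvPolynomial (Fin 3) A) :
    lsub L (p - q) = lsub L p - lsub L q := by simp [lsub]

/-- The displacement. -/
noncomputable def dl (L : Fin 3 → Fin 3 → A) (i : Fin 3) : MvPolynomial (Fin 3) A :=
  ∑ j : Fin 3, C (L i j - if i = j then 1 else 0) * X j

lemma lsub_X (L : Fin 3 → Fin 3 → A) (i : Fin 3) : lsub L (X i) = X i + dl L i := by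
  unfold lsub dl
  rw [bind₁_X_right]
  simp only [C_sub, sub_mul, Finset.sum_sub_distrib]
  have : ∑ j : Fin 3, C (if i = j then (1 : A) else 0) * X j = X i := by
    simp [apply_ite, ite_mul]
  rw [this]
  ring

lemma dl_mem {I : Ideal A} {L : Fin 3 → Fin 3 → A}
    (hL : ∀ i j, L i j - (if i = j then 1 else 0) ∈ I) (i : Fin 3) :
    dl L i ∈ Ideal.map (C : A →+* MvPolynomial (Fin 3) A) I := by
  unfold dl
  exact Ideal.sum_mem _ fun j _ => Ideal.mul_mem_right _ _ (Ideal.mem_map_of_mem C (hL i j))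

lemma lsub_mem {I : Ideal A} {L : Fin 3 → Fin 3 → A}
    (hL : ∀ i j, L i j - (if i = j then 1 else 0) ∈ I) (p : MvPolynomial (Fin 3) A) :
    lsub L p - p ∈ Ideal.map (C : A →+* MvPolynomial (Fin 3) A) I := by
  induction p using MvPolynomial.induction_on with
  | C a => rw [lsub_C, sub_self]; exact Ideal.zero_mem _
  | add p q hp hq =>
    rw [lsub_add]
    have : lsub L p + lsub L q - (p + q) = (lsub L p - p) + (lsub L q - q) := by ring
    rw [this]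
    exact Ideal.add_mem _ hp hq
  | mul_X p i hp =>
    rw [lsub_mul, lsub_X]
    have : lsub L p * (X i + dl L i) - p * X i = (lsub L p - p) * X i + lsub L p * dl L i := by
      ring
    rw [this]
    exact Ideal.add_mem _ (Ideal.mul_mem_right _ _ hp) (Ideal.mul_mem_left _ _ (dl_mem hL i))

lemma lsub_mem2 {m I : Ideal A} {L : Fin 3 → Fin 3 → A}
    (hL : ∀ i j, L i j - (if i = j then 1 else 0) ∈ I) {p : MvPolynomial (Fin 3) A}
    (hp : p ∈ Ideal.map (C : A →+* MvPolynomial (Fin 3) A) m) :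
    lsub L p - p ∈ Ideal.map (C : A →+* MvPolynomial (Fin 3) A) (m * I) := by
  rw [Ideal.map_mul]
  unfold Ideal.map at hp
  refine Submodule.span_induction (p := fun p _ => lsub L p - p ∈
    Ideal.map (C : A →+* MvPolynomial (Fin 3) A) m * Ideal.map C I) ?_ ?_ ?_ ?_ hp
  · rintro x ⟨a, ha, rfl⟩
    rw [lsub_C, sub_self]; exact Ideal.zero_mem _
  · have : lsub L 0 - 0 = 0 := by simp [lsub]
    rw [this]; exact Ideal.zero_mem _
  · intro x y _ _ hx hy
    rw [lsub_add]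
    have : lsub L x + lsub L y - (x + y) = (lsub L x - x) + (lsub L y - y) := by ring
    rw [this]
    exact Ideal.add_mem _ hx hy
  · intro q x hx' hx
    rw [smul_eq_mul, lsub_mul]
    have : lsub L q * lsub L x - q * x = lsub L q * (lsub L x - x) + x * (lsub L q - q) := by ring
    rw [this]
    exact Ideal.add_mem _ (Ideal.mul_mem_left _ _ hx) (Ideal.mul_mem_mul hx' (lsub_mem hL q))

/-- First order expansion. -/
lemma coreP {m I K : Ideal A} (hI : I ≤ m) (hK : m * I ≤ K) (h2 : (2 : A) = 0)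
    {a c a' c' s : MvPolynomial (Fin 3) A} {L : Fin 3 → Fin 3 → A} {u : A}
    (ha : a - X 0 * X 1 ∈ Ideal.map (C : A →+* MvPolynomial (Fin 3) A) m)
    (ha' : a' - X 0 * X 1 ∈ Ideal.map (C : A →+* MvPolynomial (Fin 3) A) m)
    (hc' : c' - cStd A ∈ Ideal.map (C : A →+* MvPolynomial (Fin 3) A) m)
    (hL : ∀ i j, L i j - (if i = j then 1 else 0) ∈ I) (hu : u - 1 ∈ I)
    (hs : s ∈ Ideal.map (C : A →+* MvPolynomial (Fin 3) A) I)
    (e1 : lsub L a' = C u * a) (e2 : lsub L c' = C (u ^ 2) * c + s ^ 2 + C u * a * s) :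
    a' - a - (C (u - 1) * (X 0 * X 1) + X 1 * dl L 0 + X 0 * dl L 1)
      ∈ Ideal.map (C : A →+* MvPolynomial (Fin 3) A) K ∧
    c' - c - (X 0 * X 1 * s + dl L 0 * (X 0 ^ 2 * X 2 + X 2 ^ 3) + dl L 1 * (X 1 ^ 2 * X 2 + X 2 ^ 3)
      + dl L 2 * (X 0 ^ 3 + X 1 ^ 3 + X 0 * X 2 ^ 2 + X 1 * X 2 ^ 2))
      ∈ Ideal.map (C : A →+* MvPolynomial (Fin 3) A) K := by
  have hK' : Ideal.map (C : A →+* MvPolynomial (Fin 3) A) m * Ideal.map C I ≤ Ideal.map C K := by
    rw [← Ideal.map_mul]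
    exact Ideal.map_mono hK
  have hI' : Ideal.map (C : A →+* MvPolynomial (Fin 3) A) I ≤ Ideal.map C m := Ideal.map_mono hI
  have h2' : (2 : MvPolynomial (Fin 3) A) = 0 := by
    have h : (C (2 : A) : MvPolynomial (Fin 3) A) = 0 := by rw [h2, C_0]
    rwa [map_ofNat] at h
  have mm : ∀ {x y : MvPolynomial (Fin 3) A}, x ∈ Ideal.map (C : A →+* MvPolynomial (Fin 3) A) m →
      y ∈ Ideal.map (C : A →+* MvPolynomial (Fin 3) A) I → x * y ∈
      Ideal.map (C : A →+* MvPolynomial (Fin 3) A) K := fun hx hy => hK' (Ideal.mul_mem_mul hx hy)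
  have ii : ∀ {x y : MvPolynomial (Fin 3) A}, x ∈ Ideal.map (C : A →+* MvPolynomial (Fin 3) A) I →
      y ∈ Ideal.map (C : A →+* MvPolynomial (Fin 3) A) I → x * y ∈
      Ideal.map (C : A →+* MvPolynomial (Fin 3) A) K := fun hx hy => mm (hI' hx) hy
  have hd := dl_mem hL
  have hu' : C (u - 1) ∈ Ideal.map (C : A →+* MvPolynomial (Fin 3) A) I :=
    Ideal.mem_map_of_mem C hu
  have hCu : (C u : MvPolynomial (Fin 3) A) = 1 + C (u - 1) := by
    rw [C_sub, C_1]; ring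
  have hCu2 : (C (u ^ 2) : MvPolynomial (Fin 3) A) = (1 + C (u - 1)) ^ 2 := by
    rw [C_pow, hCu]
  constructor
  · have h1 : lsub L (a' - X 0 * X 1) - (a' - X 0 * X 1) ∈ Ideal.map C K :=
      Ideal.map_mono hK (lsub_mem2 hL ha')
    rw [lsub_sub, lsub_mul, lsub_X, lsub_X, e1, hCu] at h1
    have h3 := ii (hd 0) (hd 1)
    have h4 := mm ha hu'
    have e : a' - a - (C (u - 1) * (X 0 * X 1) + X 1 * dl L 0 + X 0 * dl L 1)
      = -((1 + C (u - 1)) * a - (X 0 + dl L 0) * (X 1 + dl L 1) - (a' - X 0 * X 1))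
        - dl L 0 * dl L 1 + (a - X 0 * X 1) * C (u - 1) := by
      linear_combination (-(X 1 * dl L 0) - X 0 * dl L 1) * h2'
    rw [e]
    exact Ideal.add_mem _ (Ideal.sub_mem _ (Ideal.neg_mem_iff _ |>.mpr h1) h3) h4
  · have h1 : lsub L (c' - cStd A) - (c' - cStd A) ∈ Ideal.map C K :=
      Ideal.map_mono hK (lsub_mem2 hL hc')
    have hcs : lsub L (cStd A) = (X 0 + dl L 0) ^ 3 * (X 2 + dl L 2)
        + (X 1 + dl L 1) ^ 3 * (X 2 + dl L 2) + (X 0 + dl L 0) * (X 2 + dl L 2) ^ 3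
        + (X 1 + dl L 1) * (X 2 + dl L 2) ^ 3 := by
      simp only [cStd, lsub_add, lsub_mul, lsub_pow, lsub_X]
    rw [lsub_sub, hcs, e2, hCu, hCu2] at h1
    have h00 := Ideal.mul_mem_right ((3 * X 0 + dl L 0) * (X 2 + dl L 2)) _ (ii (hd 0) (hd 0))
    have h02 := Ideal.mul_mem_right (3 * X 0 ^ 2 + 3 * X 2 ^ 2) _ (ii (hd 0) (hd 2))
    have h11 := Ideal.mul_mem_right ((3 * X 1 + dl L 1) * (X 2 + dl L 2)) _ (ii (hd 1) (hd 1))
    have h12 := Ideal.mul_mem_right (3 * X 1 ^ 2 + 3 * X 2 ^ 2) _ (ii (hd 1) (hd 2))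
    have h22 := Ideal.mul_mem_right ((X 0 + X 1 + dl L 0 + dl L 1) * (3 * X 2 + dl L 2)) _
      (ii (hd 2) (hd 2))
    have hee := Ideal.mul_mem_right c _ (ii hu' hu')
    have hss := ii hs hs
    have has := mm ha hs
    have hes := Ideal.mul_mem_right a _ (ii hu' hs)
    have key := Ideal.sub_mem _ (Ideal.add_mem _ (Ideal.add_mem _ (Ideal.add_mem _ hee hss) has) hes)
      (Ideal.add_mem _ (Ideal.add_mem _ (Ideal.add_mem _ (Ideal.add_mem _ (Ideal.add_mem _ h00 h02)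
        h11) h12) h22) h1)
    convert key using 1
    simp only [cStd]
    generalize dl L 0 = d0
    generalize dl L 1 = d1
    generalize dl L 2 = d2
    generalize (C (u - 1) : MvPolynomial (Fin 3) A) = e
    linear_combination (e * c - (d0 * (2 * X 0 ^ 2 * X 2 + X 2 ^ 3) +
      d1 * (2 * X 1 ^ 2 * X 2 + X 2 ^ 3) + d2 * (X 0 ^ 3 + X 1 ^ 3 + 2 * X 0 * X 2 ^ 2
      + 2 * X 1 * X 2 ^ 2))) * h2'

/-- The fifteen congruences. -/
structure Table (K : Ideal A) (a c a' c' s : MvPolynomial (Fin 3) A) (P : Fin 3 → Fin 3 → A)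
    (v : A) : Prop where
  a200 : cf a' 2 0 0 - cf a 2 0 0 - P 1 0 ∈ K
  a020 : cf a' 0 2 0 - cf a 0 2 0 - P 0 1 ∈ K
  a101 : cf a' 1 0 1 - cf a 1 0 1 - P 1 2 ∈ K
  a011 : cf a' 0 1 1 - cf a 0 1 1 - P 0 2 ∈ K
  a110 : cf a' 1 1 0 - cf a 1 1 0 - (v + P 0 0 + P 1 1) ∈ K
  c400 : cf c' 4 0 0 - cf c 4 0 0 - P 2 0 ∈ K
  c040 : cf c' 0 4 0 - cf c 0 4 0 - P 2 1 ∈ K
  c301 : cf c' 3 0 1 - cf c 3 0 1 - (P 0 0 + P 2 2) ∈ K
  c031 : cf c' 0 3 1 - cf c 0 3 1 - (P 1 1 + P 2 2) ∈ K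
  c310 : cf c' 3 1 0 - cf c 3 1 0 - (P 2 1 + cf s 2 0 0) ∈ K
  c220 : cf c' 2 2 0 - cf c 2 2 0 - cf s 1 1 0 ∈ K
  c130 : cf c' 1 3 0 - cf c 1 3 0 - (P 2 0 + cf s 0 2 0) ∈ K
  c211 : cf c' 2 1 1 - cf c 2 1 1 - (P 0 1 + cf s 1 0 1) ∈ K
  c121 : cf c' 1 2 1 - cf c 1 2 1 - (P 1 0 + cf s 0 1 1) ∈ K
  c112 : cf c' 1 1 2 - cf c 1 1 2 - (P 2 0 + P 2 1 + cf s 0 0 2) ∈ K

lemma corrA {R : Type} [CommRing R] (x y z v p00 p01 p02 p10 p11 p12 : R) :
    v * (x * y) + y * (p00 * x + p01 * y + p02 * z) + x * (p10 * x + p11 * y + p12 * z)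
    = v * x ^ 1 * y ^ 1 * z ^ 0 + p00 * x ^ 1 * y ^ 1 * z ^ 0
      + p01 * x ^ 0 * y ^ 2 * z ^ 0 + p02 * x ^ 0 * y ^ 1 * z ^ 1
      + p10 * x ^ 2 * y ^ 0 * z ^ 0 + p11 * x ^ 1 * y ^ 1 * z ^ 0
      + p12 * x ^ 1 * y ^ 0 * z ^ 1 := by
  ring

lemma corrC {R : Type} [CommRing R] (x y z p00 p01 p02 p10 p11 p12 p20 p21 p22
    s1 s2 s3 s4 s5 s6 : R) :
    x * y * (s1 * x ^ 2 * y ^ 0 * z ^ 0 + s2 * x ^ 1 * y ^ 1 * z ^ 0
      + s3 * x ^ 0 * y ^ 2 * z ^ 0 + s4 * x ^ 1 * y ^ 0 * z ^ 1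
      + s5 * x ^ 0 * y ^ 1 * z ^ 1 + s6 * x ^ 0 * y ^ 0 * z ^ 2)
      + (p00 * x + p01 * y + p02 * z) * (x ^ 2 * z + z ^ 3)
      + (p10 * x + p11 * y + p12 * z) * (y ^ 2 * z + z ^ 3)
      + (p20 * x + p21 * y + p22 * z) * (x ^ 3 + y ^ 3 + x * z ^ 2 + y * z ^ 2)
    = (s1 * x ^ 3 * y ^ 1 * z ^ 0 + s2 * x ^ 2 * y ^ 2 * z ^ 0
      + s3 * x ^ 1 * y ^ 3 * z ^ 0 + s4 * x ^ 2 * y ^ 1 * z ^ 1
      + s5 * x ^ 1 * y ^ 2 * z ^ 1 + s6 * x ^ 1 * y ^ 1 * z ^ 2)
      + (p00 * x ^ 3 * y ^ 0 * z ^ 1 + p01 * x ^ 2 * y ^ 1 * z ^ 1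
      + p02 * x ^ 2 * y ^ 0 * z ^ 2 + p00 * x ^ 1 * y ^ 0 * z ^ 3
      + p01 * x ^ 0 * y ^ 1 * z ^ 3 + p02 * x ^ 0 * y ^ 0 * z ^ 4)
      + (p10 * x ^ 1 * y ^ 2 * z ^ 1 + p11 * x ^ 0 * y ^ 3 * z ^ 1
      + p12 * x ^ 0 * y ^ 2 * z ^ 2 + p10 * x ^ 1 * y ^ 0 * z ^ 3
      + p11 * x ^ 0 * y ^ 1 * z ^ 3 + p12 * x ^ 0 * y ^ 0 * z ^ 4)
      + (p20 * x ^ 4 * y ^ 0 * z ^ 0 + p20 * x ^ 1 * y ^ 3 * z ^ 0
      + p20 * x ^ 2 * y ^ 0 * z ^ 2 + p20 * x ^ 1 * y ^ 1 * z ^ 2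
      + p21 * x ^ 3 * y ^ 1 * z ^ 0 + p21 * x ^ 0 * y ^ 4 * z ^ 0
      + p21 * x ^ 1 * y ^ 1 * z ^ 2 + p21 * x ^ 0 * y ^ 2 * z ^ 2
      + p22 * x ^ 3 * y ^ 0 * z ^ 1 + p22 * x ^ 0 * y ^ 3 * z ^ 1
      + p22 * x ^ 1 * y ^ 0 * z ^ 3 + p22 * x ^ 0 * y ^ 1 * z ^ 3) := by
  congr 1
  · congr 1
    · congr 1
      · ring
      · ring
    · ring
  · ring

lemma table {m I K : Ideal A} (hI : I ≤ m) (hK : m * I ≤ K) (h2 : (2 : A) = 0)
    {a c a' c' s : MvPolynomial (Fin 3) A} {L : Fin 3 → Fin 3 → A} {u : A}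
    (ha : a - X 0 * X 1 ∈ Ideal.map (C : A →+* MvPolynomial (Fin 3) A) m)
    (ha' : a' - X 0 * X 1 ∈ Ideal.map (C : A →+* MvPolynomial (Fin 3) A) m)
    (hc' : c' - cStd A ∈ Ideal.map (C : A →+* MvPolynomial (Fin 3) A) m)
    (hL : ∀ i j, L i j - (if i = j then 1 else 0) ∈ I) (hu : u - 1 ∈ I)
    (hs : s ∈ Ideal.map (C : A →+* MvPolynomial (Fin 3) A) I) (hs2 : s.IsHomogeneous 2)
    (e1 : lsub L a' = C u * a) (e2 : lsub L c' = C (u ^ 2) * c + s ^ 2 + C u * a * s) :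
    Table K a c a' c' s (fun i j => L i j - (if i = j then 1 else 0)) (u - 1) := by
  obtain ⟨hA, hC⟩ := coreP hI hK h2 ha ha' hc' hL hu hs e1 e2
  have hA' : ∀ i j l, cf a' i j l - cf a i j l - cf (C (u - 1) * (X 0 * X 1) + X 1 * dl L 0
      + X 0 * dl L 1) i j l ∈ K := by
    intro i j l
    have := (mem_map_C_iff.mp hA) (Finsupp.equivFunOnFinite.symm ![i, j, l])
    rw [coeff_sub, coeff_sub] at this
    exact this
  have hC' : ∀ i j l, cf c' i j l - cf c i j l - cf (X 0 * X 1 * s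
      + dl L 0 * (X 0 ^ 2 * X 2 + X 2 ^ 3) + dl L 1 * (X 1 ^ 2 * X 2 + X 2 ^ 3)
      + dl L 2 * (X 0 ^ 3 + X 1 ^ 3 + X 0 * X 2 ^ 2 + X 1 * X 2 ^ 2)) i j l ∈ K := by
    intro i j l
    have := (mem_map_C_iff.mp hC) (Finsupp.equivFunOnFinite.symm ![i, j, l])
    rw [coeff_sub, coeff_sub] at this
    exact this
  obtain ⟨P, hP⟩ : ∃ P : Fin 3 → Fin 3 → A, P = fun i j => L i j - (if i = j then 1 else 0) :=
    ⟨_, rfl⟩
  rw [← hP]
  have hdl : ∀ i, dl L i = C (P i 0) * X 0 + C (P i 1) * X 1 + C (P i 2) * X 2 := by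
    intro i
    rw [hP]
    simp only [dl, Fin.sum_univ_three]
  have hse := quad_exp hs2
  generalize hs1 : cf s 2 0 0 = s1 at hse
  generalize hs2 : cf s 1 1 0 = s2 at hse
  generalize hs3 : cf s 0 2 0 = s3 at hse
  generalize hs4 : cf s 1 0 1 = s4 at hse
  generalize hs5 : cf s 0 1 1 = s5 at hse
  generalize hs6 : cf s 0 0 2 = s6 at hse
  simp only [hdl, hse, corrA, corrC, cf_add, cf_mono] at hA' hC'
  constructor
  · simpa using hA' 2 0 0
  · simpa using hA' 0 2 0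
  · simpa using hA' 1 0 1
  · simpa using hA' 0 1 1
  · simpa using hA' 1 1 0
  · simpa using hC' 4 0 0
  · simpa using hC' 0 4 0
  · simpa using hC' 3 0 1
  · simpa using hC' 0 3 1
  · rw [hs1]; simpa [add_comm] using hC' 3 1 0
  · rw [hs2]; simpa using hC' 2 2 0
  · rw [hs3]; simpa [add_comm] using hC' 1 3 0
  · rw [hs4]; simpa [add_comm] using hC' 2 1 1
  · rw [hs5]; simpa [add_comm] using hC' 1 2 1
  · rw [hs6]; simpa [add_comm, add_left_comm] using hC' 1 1 2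

lemma near_a {k : Type} [IsLocalRing A] [Field k] {π : A →+* k} (hπ : Function.Surjective π)
    {p q : MvPolynomial (Fin 3) A} (h : MvPolynomial.map π p = MvPolynomial.map π q) :
    p - q ∈ Ideal.map (C : A →+* MvPolynomial (Fin 3) A) (maximalIdeal A) := by
  have hk : RingHom.ker π = maximalIdeal A :=
    IsLocalRing.eq_maximalIdeal (RingHom.ker_isMaximal_of_surjective π hπ)
  rw [mem_map_C_iff]
  intro m
  rw [← hk, RingHom.mem_ker, coeff_sub, map_sub, ← coeff_map, ← coeff_map, h, sub_self]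

end core

end NORM

open NORM in
theorem normx : T_NORMX := by
  intro A k _ _ _ _ π hπ h2 J t hJ ht hmt a c hac hN
  have hk : ∀ x, π x = 0 ↔ x ∈ maximalIdeal A := by
    intro x
    rw [← IsLocalRing.eq_maximalIdeal (RingHom.ker_isMaximal_of_surjective π hπ),
      RingHom.mem_ker]
  have hdec : ∀ x ∈ J ⊔ Ideal.span {t}, ∃ y, x - t * y ∈ J := by
    intro x hx
    rw [Submodule.mem_sup] at hx
    obtain ⟨j, hj, z, hz, rfl⟩ := hx
    obtain ⟨y, rfl⟩ := Ideal.mem_span_singleton'.mp hz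
    exact ⟨y, by convert hj using 1; ring⟩
  obtain ⟨a200, h200⟩ := hdec _ hN.a200
  obtain ⟨a020, h020⟩ := hdec _ hN.a020
  obtain ⟨a101, h101⟩ := hdec _ hN.a101
  obtain ⟨a011, h011⟩ := hdec _ hN.a011
  obtain ⟨a110, h110⟩ := hdec _ hN.a110
  obtain ⟨c400, h400⟩ := hdec _ hN.c400
  obtain ⟨c040, h040⟩ := hdec _ hN.c040
  obtain ⟨c301, h301⟩ := hdec _ hN.c301
  obtain ⟨c031, h031⟩ := hdec _ hN.c031
  obtain ⟨c310, h310⟩ := hdec _ hN.c310
  obtain ⟨c220, h220⟩ := hdec _ hN.c220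
  obtain ⟨c130, h130⟩ := hdec _ hN.c130
  obtain ⟨c211, h211⟩ := hdec _ hN.c211
  obtain ⟨c121, h121⟩ := hdec _ hN.c121
  obtain ⟨c112, h112⟩ := hdec _ hN.c112
  let M : Fin 3 → Fin 3 → A := ![![-c301, -a020, -a011], ![-a200, -c031, -a101],
    ![-c400, -c040, 0]]
  let L : Fin 3 → Fin 3 → A := fun i j => (if i = j then 1 else 0) + t * M i j
  let u : A := 1 + t * (-a110 + c301 + c031)
  let s : MvPolynomial (Fin 3) A :=
    C (t * (-c310 + c040)) * X 0 ^ 2 * X 1 ^ 0 * X 2 ^ 0 + C (t * (-c220)) * X 0 ^ 1 * X 1 ^ 1 * X 2 ^ 0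
      + C (t * (-c130 + c400)) * X 0 ^ 0 * X 1 ^ 2 * X 2 ^ 0
      + C (t * (-c211 + a020)) * X 0 ^ 1 * X 1 ^ 0 * X 2 ^ 1
      + C (t * (-c121 + a200)) * X 0 ^ 0 * X 1 ^ 1 * X 2 ^ 1
      + C (t * (-c112 + c400 + c040)) * X 0 ^ 0 * X 1 ^ 0 * X 2 ^ 2
  have hπt : π t = 0 := (hk t).mpr ht
  have hP : ∀ i j, L i j - (if i = j then 1 else 0) = t * M i j := by
    intro i j
    simp only [L]
    ring
  have hu : u - 1 = t * (-a110 + c301 + c031) := by
    simp only [u]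
    ring
  have ht' : ∀ y, t * y ∈ Ideal.span {t} := fun y => Ideal.mem_span_singleton'.mpr ⟨y, mul_comm _ _⟩
  have homm : ∀ (x : A) (i j l : ℕ), i + j + l = 2 →
      (C x * X 0 ^ i * X 1 ^ j * X 2 ^ l : MvPolynomial (Fin 3) A).IsHomogeneous 2 := by
    intro x i j l h
    have h1 := (((isHomogeneous_C (Fin 3) x).mul ((isHomogeneous_X A (0 : Fin 3)).pow i)).mul
      ((isHomogeneous_X A (1 : Fin 3)).pow j)).mul ((isHomogeneous_X A (2 : Fin 3)).pow l)
    convert h1 using 1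
    omega
  have hs : s.IsHomogeneous 2 :=
    ((((((homm _ 2 0 0 rfl).add (homm _ 1 1 0 rfl)).add (homm _ 0 2 0 rfl)).add
      (homm _ 1 0 1 rfl)).add (homm _ 0 1 1 rfl)).add (homm _ 0 0 2 rfl))
  have hsC : ∀ (y : A) (i j l : ℕ), C (t * y) * X 0 ^ i * X 1 ^ j * X 2 ^ l ∈
      Ideal.map (C : A →+* MvPolynomial (Fin 3) A) (Ideal.span {t}) := fun y i j l =>
    Ideal.mul_mem_right _ _ (Ideal.mul_mem_right _ _ (Ideal.mul_mem_right _ _
      (Ideal.mem_map_of_mem C (ht' y))))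
  have hsI : s ∈ Ideal.map (C : A →+* MvPolynomial (Fin 3) A) (Ideal.span {t}) :=
    Ideal.add_mem _ (Ideal.add_mem _ (Ideal.add_mem _ (Ideal.add_mem _ (Ideal.add_mem _
      (hsC _ _ _ _) (hsC _ _ _ _)) (hsC _ _ _ _)) (hsC _ _ _ _)) (hsC _ _ _ _)) (hsC _ _ _ _)
  refine ⟨L, u, s, ?_, ?_, hs, ?_, ?_⟩
  · intro i j
    simp only [L, map_add, map_mul, hπt, zero_mul, add_zero]
    split_ifs <;> simp
  · simp only [u, map_add, map_mul, hπt, zero_mul, add_zero, map_one]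
  · simp only [s, map_add, map_mul, map_C, hπt, zero_mul, C_0, add_zero]
  · intro a' c' hac' e1 e2
    have T := table (m := maximalIdeal A) (I := Ideal.span {t}) (K := J)
      ((Ideal.span_singleton_le_iff_mem _).mpr ht)
      (by
        rw [Ideal.mul_le]
        intro r hr x hx
        obtain ⟨y, rfl⟩ := Ideal.mem_span_singleton'.mp hx
        rw [← mul_assoc]
        exact hmt _ (Ideal.mul_mem_right _ _ hr)) h2
      (a := a) (c := c) (a' := a') (c' := c') (s := s) (L := L) (u := u)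
      (near_a hπ (by simpa using hac.ra)) (near_a hπ (by simpa using hac'.ra))
      (near_a hπ (by rw [hac'.rc]; simp [cStd]))
      (fun i j => by rw [hP]; exact ht' _) (by rw [hu]; exact ht' _) hsI hs e1 e2
    have hPf : (fun i j => L i j - (if i = j then 1 else 0)) = fun i j => t * M i j := by
      funext i j
      exact hP i j
    rw [hPf, hu] at T
    have m00 : M 0 0 = -c301 := rfl
    have m01 : M 0 1 = -a020 := rfl
    have m02 : M 0 2 = -a011 := rfl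
    have m10 : M 1 0 = -a200 := rfl
    have m11 : M 1 1 = -c031 := rfl
    have m12 : M 1 2 = -a101 := rfl
    have m20 : M 2 0 = -c400 := rfl
    have m21 : M 2 1 = -c040 := rfl
    have m22 : M 2 2 = 0 := rfl
    have s200 : cf s 2 0 0 = t * (-c310 + c040) := by simp only [s, cf_add, cf_mono]; simp
    have s110 : cf s 1 1 0 = t * (-c220) := by simp only [s, cf_add, cf_mono]; simp
    have s020 : cf s 0 2 0 = t * (-c130 + c400) := by simp only [s, cf_add, cf_mono]; simp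
    have s101 : cf s 1 0 1 = t * (-c211 + a020) := by simp only [s, cf_add, cf_mono]; simp
    have s011 : cf s 0 1 1 = t * (-c121 + a200) := by simp only [s, cf_add, cf_mono]; simp
    have s002 : cf s 0 0 2 = t * (-c112 + c400 + c040) := by simp only [s, cf_add, cf_mono]; simp
    obtain ⟨t1, t2, t3, t4, t5, t6, t7, t8, t9, t10, t11, t12, t13, t14, t15⟩ := T
    rw [s200] at t10
    rw [s110] at t11
    rw [s020] at t12
    rw [s101] at t13
    rw [s011] at t14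
    rw [s002] at t15
    simp only [m00, m01, m02, m10, m11, m12, m20, m21, m22] at t1 t2 t3 t4 t5 t6 t7 t8 t9 t10 t12 t13 t14 t15
    clear_value s L u M
    constructor
    · convert Ideal.add_mem _ t1 h200 using 1; ring
    · convert Ideal.add_mem _ t2 h020 using 1; ring
    · convert Ideal.add_mem _ t3 h101 using 1; ring
    · convert Ideal.add_mem _ t4 h011 using 1; ring
    · convert Ideal.add_mem _ t5 h110 using 1; ring
    · convert Ideal.add_mem _ t6 h400 using 1; ring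
    · convert Ideal.add_mem _ t7 h040 using 1; ring
    · convert Ideal.add_mem _ t8 h301 using 1; ring
    · convert Ideal.add_mem _ t9 h031 using 1; ring
    · convert Ideal.add_mem _ t10 h310 using 1; ring
    · convert Ideal.add_mem _ t11 h220 using 1; ring
    · convert Ideal.add_mem _ t12 h130 using 1; ring
    · convert Ideal.add_mem _ t13 h211 using 1; ring
    · convert Ideal.add_mem _ t14 h121 using 1; ring
    · convert Ideal.add_mem _ t15 h112 using 1; ring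

open NORM in
theorem normu : T_NORMU := by
  intro A k _ _ _ _ π hπ h2 a c a' c' hac hac' hN hN' L u s hL hL22 hu hs hπs e1 e2
  have hk : ∀ x, π x = 0 ↔ x ∈ maximalIdeal A := by
    intro x
    rw [← IsLocalRing.eq_maximalIdeal (RingHom.ker_isMaximal_of_surjective π hπ),
      RingHom.mem_ker]
  let G : Set A := (Set.range fun p : Fin 3 × Fin 3 => L p.1 p.2 - (if p.1 = p.2 then 1 else 0))
    ∪ {u - 1} ∪ Set.range fun m => s.coeff m
  let I : Ideal A := Ideal.span G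
  have hIm : I ≤ maximalIdeal A := by
    refine Ideal.span_le.mpr ?_
    rintro x ((⟨p, rfl⟩ | hx) | ⟨m, rfl⟩)
    · refine (hk _).mp ?_
      simp only [map_sub, hL]
      split_ifs <;> simp
    · rw [Set.mem_singleton_iff] at hx
      subst hx
      exact (hk _).mp (by rw [map_sub, hu, map_one, sub_self])
    · refine (hk _).mp ?_
      rw [← coeff_map, hπs, coeff_zero]
  have hP : ∀ i j, L i j - (if i = j then 1 else 0) ∈ I := fun i j =>
    Ideal.subset_span (Or.inl (Or.inl ⟨(i, j), rfl⟩))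
  have hu1 : u - 1 ∈ I := Ideal.subset_span (Or.inl (Or.inr rfl))
  have hsI : s ∈ Ideal.map (C : A →+* MvPolynomial (Fin 3) A) I :=
    mem_map_C_iff.mpr fun m => Ideal.subset_span (Or.inr ⟨m, rfl⟩)
  have T := table (m := maximalIdeal A) (I := I) (K := maximalIdeal A * I) hIm le_rfl h2
    (a := a) (c := c) (a' := a') (c' := c') (s := s) (L := L) (u := u)
    (near_a hπ (by simpa using hac.ra)) (near_a hπ (by simpa using hac'.ra))
    (near_a hπ (by rw [hac'.rc]; simp [cStd])) hP hu1 hsI hs e1 e2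
  set P : Fin 3 → Fin 3 → A := fun i j => L i j - (if i = j then 1 else 0) with hPdef
  set K := maximalIdeal A * I with hKdef
  have n1 := fun x (h : x ∈ (⊥ : Ideal A)) => (Ideal.mem_bot.mp h)
  have z : ∀ {x y w : A}, x ∈ (⊥ : Ideal A) → y ∈ (⊥ : Ideal A) → x - y - w ∈ K → w ∈ K := by
    intro x y w hx hy h
    rw [Ideal.mem_bot.mp hx, Ideal.mem_bot.mp hy, sub_self, zero_sub] at h
    exact (Ideal.neg_mem_iff _).mp h
  have z' : ∀ {x y w : A}, x - 1 ∈ (⊥ : Ideal A) → y - 1 ∈ (⊥ : Ideal A) → x - y - w ∈ K →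
      w ∈ K := by
    intro x y w hx hy h
    rw [sub_eq_zero.mp (Ideal.mem_bot.mp hx), sub_eq_zero.mp (Ideal.mem_bot.mp hy), sub_self,
      zero_sub] at h
    exact (Ideal.neg_mem_iff _).mp h
  have p10 : P 1 0 ∈ K := z hN'.a200 hN.a200 T.a200
  have p01 : P 0 1 ∈ K := z hN'.a020 hN.a020 T.a020
  have p12 : P 1 2 ∈ K := z hN'.a101 hN.a101 T.a101
  have p02 : P 0 2 ∈ K := z hN'.a011 hN.a011 T.a011
  have p20 : P 2 0 ∈ K := z hN'.c400 hN.c400 T.c400
  have p21 : P 2 1 ∈ K := z hN'.c040 hN.c040 T.c040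
  have p22 : P 2 2 ∈ K := by
    have : P 2 2 = 0 := by simp [hPdef, hL22]
    rw [this]; exact Ideal.zero_mem _
  have cancel : ∀ {x y : A}, x + y ∈ K → y ∈ K → x ∈ K := fun h1 h2 =>
    (Ideal.add_mem_iff_left _ h2).mp h1
  have cancel' : ∀ {x y : A}, x + y ∈ K → x ∈ K → y ∈ K := fun h1 h2 =>
    (Ideal.add_mem_iff_right _ h2).mp h1
  have p00 : P 0 0 ∈ K := cancel (z' hN'.c301 hN.c301 T.c301) p22
  have p11 : P 1 1 ∈ K := cancel (z' hN'.c031 hN.c031 T.c031) p22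
  have hv : u - 1 ∈ K := cancel (cancel (z' hN'.a110 hN.a110 T.a110) p11) p00
  have s200 : cf s 2 0 0 ∈ K := cancel' (z hN'.c310 hN.c310 T.c310) p21
  have s110 : cf s 1 1 0 ∈ K := z hN'.c220 hN.c220 T.c220
  have s020 : cf s 0 2 0 ∈ K := cancel' (z hN'.c130 hN.c130 T.c130) p20
  have s101 : cf s 1 0 1 ∈ K := cancel' (z hN'.c211 hN.c211 T.c211) p01
  have s011 : cf s 0 1 1 ∈ K := cancel' (z hN'.c121 hN.c121 T.c121) p10
  have s002 : cf s 0 0 2 ∈ K := cancel' (z hN'.c112 hN.c112 T.c112) (Ideal.add_mem _ p20 p21)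
  have hIK : I ≤ K := by
    refine Ideal.span_le.mpr ?_
    rintro x ((⟨⟨i, j⟩, rfl⟩ | hx) | ⟨m, rfl⟩)
    · change P i j ∈ K
      fin_cases i <;> fin_cases j <;> assumption
    · rw [Set.mem_singleton_iff] at hx
      subst hx
      exact hv
    · change s.coeff m ∈ K
      rw [coeff_eq_cf]
      generalize m 0 = i
      generalize m 1 = j
      generalize m 2 = l
      by_cases h : i + j + l = 2
      · have hi : i ≤ 2 := by omega
        have hj : j ≤ 2 := by omega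
        have hl : l = 2 - i - j := by omega
        subst hl
        interval_cases i <;> interval_cases j <;> first | omega | assumption
      · rw [cf_hom hs h]
        exact Ideal.zero_mem _
  have hI0 : I = ⊥ := by
    refine Submodule.eq_bot_of_le_smul_of_le_jacobson_bot (maximalIdeal A) I
      (IsNoetherian.noetherian I) hIK ?_
    rw [IsLocalRing.jacobson_eq_maximalIdeal _ bot_ne_top]
  rw [hI0] at hP hu1
  refine ⟨fun i j => sub_eq_zero.mp (Ideal.mem_bot.mp (hP i j)),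
    sub_eq_zero.mp (Ideal.mem_bot.mp hu1), ?_⟩
  rw [hI0, Ideal.map_bot] at hsI
  exact Ideal.mem_bot.mp hsI

end Pool.Agent.H1.CM
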