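import Mathlib
import Pool.Agent.H1.CM.Targets1

/-!
# Module OV: `H¹(X₀, O(d)) = 0`
-/

namespace Pool.Agent.H1.CM

theorem ov : T_OV := by
  intro V _ d g01 g12 g20 h01 h12 h20 hsum
  classical
  have key : ∀ s, g01 s + g12 s + g20 s = 0 := fun s => by
    have := DFunLike.congr_fun hsum s
    simpa using this
  have H01 : ∀ s, g01 s ≠ 0 → 0 ≤ expo s 2 + d := fun s hs => by
    have := h01 s (Finsupp.mem_support_iff.mpr hs) 2 (by decide)
    simpa using this
  have H12 : ∀ s, g12 s ≠ 0 → 0 ≤ expo s 0 := fun s hs => by
    have := h12 s (Finsupp.mem_support_iff.mpr hs) 0 (by decide)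
    simpa using this
  have H20 : ∀ s, g20 s ≠ 0 → 0 ≤ expo s 1 := fun s hs => by
    have := h20 s (Finsupp.mem_support_iff.mpr hs) 1 (by decide)
    simpa using this
  refine ⟨g01.filter (fun s => ¬ 0 ≤ expo s 0), (-g01).filter (fun s => 0 ≤ expo s 0),
    g20.filter (fun s => 0 ≤ expo s 0), ?_, ?_, ?_, ?_, ?_, ?_⟩
  · intro s hs
    rw [Finsupp.support_filter, Finset.mem_filter, Finsupp.mem_support_iff] at hs
    obtain ⟨hs1, hs2⟩ := hs
    have h12s : g12 s = 0 := by
      by_contra h; exact hs2 (H12 s h)
    have h20s : g20 s ≠ 0 := by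
      intro h
      have := key s
      rw [h12s, h] at this
      simp at this
      exact hs1 this
    intro r hr
    fin_cases r
    · simp at hr
    · simpa using H20 s h20s
    · simpa using H01 s hs1
  · intro s hs
    rw [Finsupp.support_filter, Finset.mem_filter, Finsupp.mem_support_iff] at hs
    obtain ⟨hs1, hs2⟩ := hs
    have hs1' : g01 s ≠ 0 := by
      intro h; apply hs1; simp [h]
    intro r hr
    fin_cases r
    · simpa using hs2
    · simp at hr
    · simpa using H01 s hs1'
  · intro s hs
    rw [Finsupp.support_filter, Finset.mem_filter, Finsupp.mem_support_iff] at hs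
    obtain ⟨hs1, hs2⟩ := hs
    intro r hr
    fin_cases r
    · simpa using hs2
    · simpa using H20 s hs1
    · simp at hr
  · ext s
    by_cases h : 0 ≤ expo s 0
    · simp [Finsupp.filter_apply, h]
    · simp [Finsupp.filter_apply, h]
  · ext s
    have hk := key s
    by_cases h : 0 ≤ expo s 0
    · simp only [Finsupp.sub_apply, Finsupp.filter_apply, h, if_true, Finsupp.neg_apply]
      rw [eq_comm, ← sub_eq_zero]
      rw [← neg_eq_zero]
      rw [← hk]; abel
    · have h12s : g12 s = 0 := by
        by_contra h'; exact h (H12 s h')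
      simp [Finsupp.filter_apply, h, h12s]
  · ext s
    have hk := key s
    by_cases h : 0 ≤ expo s 0
    · simp [Finsupp.filter_apply, h]
    · have h12s : g12 s = 0 := by
        by_contra h'; exact h (H12 s h')
      simp only [Finsupp.sub_apply, Finsupp.filter_apply, h, if_false, not_false_eq_true, if_true]
      rw [h12s, add_zero] at hk
      rw [zero_sub]
      exact eq_neg_of_add_eq_zero_right hk

end Pool.Agent.H1.CM
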