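import Mathlib
import Pool.Agent.H1.CM.Targets1

/-!
# Module RED: elementary properties of the reduction
-/

namespace Pool.Agent.H1.CM

open IsLocalRing

namespace RED

variable {A k C C₀ : Type} [CommRing A] [IsLocalRing A] [Field k] [CommRing C] [CommRing C₀]

lemma ker_eq {π : A →+* k} (hπ : Function.Surjective π) (a : A) :
    π a = 0 ↔ a ∈ maximalIdeal A := by
  have h : RingHom.ker π = maximalIdeal A :=
    IsLocalRing.eq_maximalIdeal (RingHom.ker_isMaximal_of_surjective π hπ)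
  rw [← h, RingHom.mem_ker]

omit [IsLocalRing A] in
lemma lift {π : A →+* k} (hπ : Function.Surjective π) (g₀ : Idx →₀ k) :
    ∃ g : Idx →₀ A, g.mapRange π (map_zero π) = g₀ ∧ g.support ⊆ g₀.support := by
  classical
  let σ : k → A := fun x => if x = 0 then 0 else Function.surjInv hπ x
  have h0 : σ 0 = 0 := by simp [σ]
  have hσ : ∀ x, π (σ x) = x := by
    intro x
    by_cases hx : x = 0
    · simp [σ, hx]
    · simp [σ, hx, Function.surjInv_eq hπ x]
  refine ⟨g₀.mapRange σ h0, ?_, Finsupp.support_mapRange⟩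
  ext s
  simp [hσ]

omit [IsLocalRing A] in
lemma rho_comb {π : A →+* k} {ι : A →+* C} {B : Finset (Fin 3) → Subring C} {ι₀ : k →+* C₀}
    {q₀ : Quad C₀} {ρ : C →+* C₀} (hC : Ctx π ι B ι₀ q₀ ρ) {β : Idx → C}
    (hβ : ∀ s, ρ (β s) = q₀.mon s) (g : Idx →₀ A) :
    ρ (comb ι β g) = comb ι₀ q₀.mon (g.mapRange π (map_zero π)) := by
  rw [comb_map ι ι₀ π ρ hC.comm β g]
  have : (fun s => ρ (β s)) = q₀.mon := funext hβ
  rw [this]

omit [IsLocalRing A] in
/-- Coordinates of the elements of an extended ideal. -/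
lemma coords {ι : A →+* C} {β : Idx → C} (hb : Function.Bijective (comb ι β)) (J : Ideal A)
    (g : Idx →₀ A) : comb ι β g ∈ Ideal.map ι J ↔ ∀ s, g s ∈ J := by
  classical
  constructor
  · intro h
    have key : ∀ c ∈ Ideal.map ι J, ∃ g : Idx →₀ A, (∀ s, g s ∈ J) ∧ c = comb ι β g := by
      intro c hc
      unfold Ideal.map at hc
      refine Submodule.span_induction (p := fun c _ => ∃ g : Idx →₀ A, (∀ s, g s ∈ J) ∧
        c = comb ι β g) ?_ ?_ ?_ ?_ hc
      · rintro x ⟨j, hj, rfl⟩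
        obtain ⟨g1, hg1⟩ := hb.2 1
        refine ⟨j • g1, fun s => ?_, ?_⟩
        · simpa using J.mul_mem_right (g1 s) hj
        · rw [comb_smul, hg1, mul_one]
      · exact ⟨0, by simp, by simp⟩
      · rintro x y _ _ ⟨g1, h1, rfl⟩ ⟨g2, h2, rfl⟩
        exact ⟨g1 + g2, fun s => by simpa using J.add_mem (h1 s) (h2 s), (comb_add ..).symm⟩
      · rintro a x _ ⟨g1, h1, rfl⟩
        choose h hh using fun s : Idx => hb.2 (a * β s)
        refine ⟨∑ s ∈ g1.support, g1 s • h s, fun s => ?_, ?_⟩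
        · rw [Finsupp.finsetSum_apply]
          refine J.sum_mem fun i _ => ?_
          simpa using J.mul_mem_right (h i s) (h1 i)
        · rw [comb_sum]
          simp only [comb_smul, hh]
          rw [smul_eq_mul]
          unfold comb
          rw [Finsupp.sum, Finset.mul_sum]
          exact Finset.sum_congr rfl fun s _ => by ring
    obtain ⟨g', hg', he⟩ := key _ h
    rw [hb.1 he]
    exact hg'
  · intro h
    unfold comb
    rw [Finsupp.sum]
    refine Ideal.sum_mem _ fun s _ => ?_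
    exact Ideal.mul_mem_right _ _ (Ideal.mem_map_of_mem ι (h s))

lemma nilp [IsArtinianRing A] (ι : A →+* C) : ∃ L : ℕ, ∀ c ∈ Ideal.map ι (maximalIdeal A), c ^ L = 0 := by
  obtain ⟨L, hL⟩ := IsArtinianRing.isNilpotent_jacobson_bot (R := A)
  rw [IsLocalRing.jacobson_eq_maximalIdeal _ bot_ne_top] at hL
  refine ⟨L, fun c hc => ?_⟩
  have h1 : c ^ L ∈ (Ideal.map ι (maximalIdeal A)) ^ L := Ideal.pow_mem_pow hc L
  rw [← Ideal.map_pow, hL] at h1
  simpa using h1

end RED

open RED in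
theorem red : T_RED := by
  intro A k C C₀ _ _ _ _ _ _ π ι B ι₀ q₀ ρ hC
  classical
  obtain ⟨β, hF, hβ⟩ := hC.basis
  have hρ := rho_comb hC hβ
  have h1 : ∀ c₀, ∃ c, ρ c = c₀ := by
    intro c₀
    obtain ⟨g₀, rfl⟩ := hC.fr₀.2 c₀
    obtain ⟨g, hg, -⟩ := lift hC.surj g₀
    exact ⟨comb ι β g, by rw [hρ, hg]⟩
  have h2 : ∀ S : Finset (Fin 3), S.Nonempty → ∀ c ∈ B S, InSpan ι₀ q₀.mon (reg S) (ρ c) := by
    intro S hS c hc
    obtain ⟨g, hg, rfl⟩ := (hF.mem S hS c).mp hc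
    exact ⟨_, fun s hs => hg s (Finsupp.support_mapRange hs), hρ g⟩
  have h3 : ∀ S : Finset (Fin 3), S.Nonempty → ∀ c₀, InSpan ι₀ q₀.mon (reg S) c₀ →
      ∃ c ∈ B S, ρ c = c₀ := by
    rintro S hS c₀ ⟨g₀, hg₀, rfl⟩
    obtain ⟨g, hg, hs⟩ := lift hC.surj g₀
    exact ⟨comb ι β g, (hF.mem S hS _).mpr ⟨g, fun s h => hg₀ s (hs h), rfl⟩, by rw [hρ, hg]⟩
  have h4 : ∀ c, ρ c = 0 ↔ c ∈ Ideal.map ι (maximalIdeal A) := by
    intro c
    obtain ⟨g, rfl⟩ := hF.bij.2 c
    rw [coords hF.bij, hρ]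
    constructor
    · intro h s
      have : g.mapRange π (map_zero π) = 0 := hC.fr₀.1 (by rw [h, comb_zero])
      have h' := DFunLike.congr_fun this s
      rw [← ker_eq hC.surj]
      simpa using h'
    · intro h
      have : g.mapRange π (map_zero π) = 0 := by
        ext s
        simpa using (ker_eq hC.surj _).mpr (h s)
      rw [this, comb_zero]
  obtain ⟨L, hL⟩ := nilp ι
  have h5 : ∀ S : Finset (Fin 3), S.Nonempty → ∀ c ∈ B S, ∀ d₀, InSpan ι₀ q₀.mon (reg S) d₀ →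
      ρ c * d₀ = 1 → ∃ d ∈ B S, c * d = 1 := by
    intro S hS c hc d₀ hd₀ hcd
    obtain ⟨d, hd, rfl⟩ := h3 S hS d₀ hd₀
    have hν : 1 - c * d ∈ Ideal.map ι (maximalIdeal A) := by
      rw [← h4, map_sub, map_one, map_mul, hcd, sub_self]
    have hνL := hL _ hν
    have hνB : 1 - c * d ∈ B S := (B S).sub_mem (B S).one_mem ((B S).mul_mem hc hd)
    refine ⟨d * ∑ i ∈ Finset.range L, (1 - c * d) ^ i, (B S).mul_mem hd
      ((B S).sum_mem fun i _ => (B S).pow_mem hνB i), ?_⟩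
    have := mul_neg_geom_sum (1 - c * d) L
    have e : 1 - (1 - c * d) = c * d := by ring
    rw [hνL, sub_zero, e] at this
    rw [← mul_assoc]
    exact this
  refine ⟨h1, h2, h3, h4, h5, ?_⟩
  intro c hc
  obtain ⟨d₀, hd₀⟩ := hc.exists_right_inv
  obtain ⟨d, rfl⟩ := h1 d₀
  have hν : 1 - c * d ∈ Ideal.map ι (maximalIdeal A) := by
    rw [← h4, map_sub, map_one, map_mul, hd₀, sub_self]
  have hνL := hL _ hν
  have h := (IsNilpotent.isUnit_one_sub (r := 1 - c * d) ⟨L, hνL⟩)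
  have e : 1 - (1 - c * d) = c * d := by ring
  rw [e] at h
  exact isUnit_of_mul_isUnit_left h

open RED in
theorem redt (h1 : T_RED) : T_REDT := by
  intro A k C C₀ _ _ _ _ _ _ π ι B ι₀ q₀ ρ hC J t hJ ht htJ hmt
  classical
  obtain ⟨-, -, -, h4, -, -⟩ := h1 π ι B ι₀ q₀ ρ hC
  obtain ⟨β, hF, hβ⟩ := hC.basis
  have hρ := rho_comb hC hβ
  have hu : ∀ a : A, t * a ∈ J ↔ a ∈ maximalIdeal A := by
    intro a
    constructor
    · intro h
      by_contra ha
      have hau : IsUnit a := by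
        by_contra hn
        exact ha ((IsLocalRing.mem_maximalIdeal a).mpr hn)
      exact htJ ((Ideal.mul_unit_mem_iff_mem J hau).mp h)
    · intro h
      rw [mul_comm]
      exact hmt a h
  refine ⟨?_, ?_, ?_⟩
  · intro c
    rw [h4]
    obtain ⟨g, rfl⟩ := hF.bij.2 c
    rw [← comb_smul, coords hF.bij, coords hF.bij]
    exact forall_congr' fun s => by simpa using hu (g s)
  · intro S hS b hb c hbc
    obtain ⟨h, hh, rfl⟩ := (hF.mem S hS b).mp hb
    obtain ⟨g, rfl⟩ := hF.bij.2 c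
    rw [← comb_smul, ← comb_sub, coords hF.bij] at hbc
    refine ⟨_, fun s hs => ?_, hρ g⟩
    by_contra hsR
    have h0 : h s = 0 := by
      by_contra h0
      exact hsR (hh s (Finsupp.mem_support_iff.mpr h0))
    have h2 := hbc s
    simp only [Finsupp.sub_apply, h0, Finsupp.smul_apply, smul_eq_mul, zero_sub] at h2
    have h3 : g s ∈ maximalIdeal A := (hu (g s)).mp (by simpa using J.neg_mem h2)
    have h5 : π (g s) = 0 := (ker_eq hC.surj _).mpr h3
    rw [Finsupp.mem_support_iff] at hs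
    exact hs (by simpa using h5)
  · intro c hc
    rw [Ideal.map_sup, Ideal.map_span, Set.image_singleton, Submodule.mem_sup] at hc
    obtain ⟨x, hx, y, hy, rfl⟩ := hc
    obtain ⟨γ, rfl⟩ := Ideal.mem_span_singleton'.mp hy
    refine ⟨γ, ?_⟩
    have e : x + γ * ι t - ι t * γ = x := by ring
    rw [e]
    exact hx

end Pool.Agent.H1.CM
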