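import Mathlib
import Pool.Agent.H1.CM.Targets1

/-!
# Module TV: `H¹(X₀, p^*T) = 0`
-/

namespace Pool.Agent.H1.CM

namespace TV

variable {V : Type} [AddCommGroup V]

/-- The case of a monomial. -/
noncomputable def cs (s : Idx) : ℕ :=
  if 0 ≤ expo s 0 then 0 else if 0 ≤ expo s 1 then 1 else if 0 ≤ expo s 2 then 2 else
    if expo s 0 ≤ -2 then 3 else if expo s 1 ≤ -2 then 4 else 5

open Classical in
noncomputable def F0 (x01 x20 : Idx →₀ V) : Idx →₀ V :=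
  x01.filter (fun s => cs s = 1 ∨ cs s = 3) - x20.filter (fun s => cs s = 2)

open Classical in
noncomputable def F1 (x01 x12 : Idx →₀ V) : Idx →₀ V :=
  x12.filter (fun s => cs s = 2) - x01.filter (fun s => cs s = 0 ∨ cs s = 4)

open Classical in
noncomputable def F2 (x12 x20 : Idx →₀ V) : Idx →₀ V :=
  x20.filter (fun s => cs s = 0 ∨ cs s = 5) - x12.filter (fun s => cs s = 1)

lemma EX_neg {e : ℤ} {θ φ : V} (h : EX e θ φ) : EX e (-θ) (-φ) := by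
  unfold EX at *; simpa using h

lemma EY_neg {e : ℤ} {θ φ : V} (h : EY e θ φ) : EY e (-θ) (-φ) := by
  unfold EY at *; simpa using h

lemma EZ_neg {e : ℤ} {θ φ : V} (h : EZ e θ φ) : EZ e (-θ) (-φ) := by
  unfold EZ at *; simpa using h

lemma EX_zero {e : ℤ} : EX e (0 : V) 0 := by simp [EX]
lemma EY_zero {e : ℤ} : EY e (0 : V) 0 := by simp [EY]
lemma EZ_zero {e : ℤ} : EZ e (0 : V) 0 := by simp [EZ]

lemma EX_nonneg {e : ℤ} (h : 0 ≤ e) {θ φ : V} : EX e θ φ := by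
  refine ⟨fun h1 => ?_, fun h1 => ?_⟩ <;> omega
lemma EY_nonneg {e : ℤ} (h : 0 ≤ e) {θ φ : V} : EY e θ φ := by
  refine ⟨fun h1 => ?_, fun h1 => ?_⟩ <;> omega
lemma EZ_nonneg {e : ℤ} (h : 0 ≤ e) {θ φ : V} : EZ e θ φ := by
  refine ⟨fun h1 => ?_, fun h1 => ?_⟩ <;> omega

lemma F0_apply (x01 x20 : Idx →₀ V) (s : Idx) :
    F0 x01 x20 s = (if cs s = 1 ∨ cs s = 3 then x01 s else 0) - (if cs s = 2 then x20 s else 0) := by
  simp [F0, Finsupp.filter_apply]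

lemma F1_apply (x01 x12 : Idx →₀ V) (s : Idx) :
    F1 x01 x12 s = (if cs s = 2 then x12 s else 0) - (if cs s = 0 ∨ cs s = 4 then x01 s else 0) := by
  simp [F1, Finsupp.filter_apply]

lemma F2_apply (x12 x20 : Idx →₀ V) (s : Idx) :
    F2 x12 x20 s = (if cs s = 0 ∨ cs s = 5 then x20 s else 0) - (if cs s = 1 then x12 s else 0) := by
  simp [F2, Finsupp.filter_apply]

/-- The six cases. -/
lemma cases6 (s : Idx) :
    (cs s = 0 ∧ 0 ≤ expo s 0) ∨ (cs s = 1 ∧ 0 ≤ expo s 1) ∨ (cs s = 2 ∧ 0 ≤ expo s 2) ∨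
    (cs s = 3 ∧ expo s 0 ≤ -2) ∨ (cs s = 4 ∧ expo s 1 ≤ -2) ∨ (cs s = 5 ∧ expo s 2 ≤ -2) := by
  unfold cs
  by_cases h0 : 0 ≤ expo s 0
  · simp [h0]
  by_cases h1 : 0 ≤ expo s 1
  · simp [h0, h1]
  by_cases h2 : 0 ≤ expo s 2
  · simp [h0, h1, h2]
  by_cases h3 : expo s 0 ≤ -2
  · simp [h0, h1, h2, h3]
  by_cases h4 : expo s 1 ≤ -2
  · simp [h0, h1, h2, h3, h4]
  have h5 : expo s 2 ≤ -2 := by
    obtain ⟨i, j, t⟩ := s
    have e0 : expo (i, j, t) 0 = i := rfl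
    have e1 : expo (i, j, t) 1 = j := rfl
    have e2 : expo (i, j, t) 2 = -i - j - dg t := rfl
    rw [e0] at h0 h3
    rw [e1] at h1 h4
    rw [e2] at h2 ⊢
    have ht : dg t = 0 ∨ dg t = 2 ∨ dg t = 5 ∨ dg t = 7 := by
      fin_cases t <;> simp [dg]
    omega
  simp [h0, h1, h2, h3, h4, h5]

lemma main (x01 x12 x20 y01 y12 y20 : V) (a b c : ℤ) (h01 : EZ c x01 y01) (h12 : EX a x12 y12)
    (h20 : EY b x20 y20) (hx : x01 + x12 + x20 = 0) (hy : y01 + y12 + y20 = 0)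
    (n : ℕ) (hn : (n = 0 ∧ 0 ≤ a) ∨ (n = 1 ∧ 0 ≤ b) ∨ (n = 2 ∧ 0 ≤ c) ∨
      (n = 3 ∧ a ≤ -2) ∨ (n = 4 ∧ b ≤ -2) ∨ (n = 5 ∧ c ≤ -2))
    (f0 f1 f2 g0 g1 g2 : V)
    (e0 : f0 = (if n = 1 ∨ n = 3 then x01 else 0) - (if n = 2 then x20 else 0))
    (e1 : f1 = (if n = 2 then x12 else 0) - (if n = 0 ∨ n = 4 then x01 else 0))
    (e2 : f2 = (if n = 0 ∨ n = 5 then x20 else 0) - (if n = 1 then x12 else 0))
    (e0' : g0 = (if n = 1 ∨ n = 3 then y01 else 0) - (if n = 2 then y20 else 0))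
    (e1' : g1 = (if n = 2 then y12 else 0) - (if n = 0 ∨ n = 4 then y01 else 0))
    (e2' : g2 = (if n = 0 ∨ n = 5 then y20 else 0) - (if n = 1 then y12 else 0)) :
    (EY b f0 g0 ∧ EZ c f0 g0) ∧ (EX a f1 g1 ∧ EZ c f1 g1) ∧ (EX a f2 g2 ∧ EY b f2 g2) ∧
    x01 = f0 - f1 ∧ y01 = g0 - g1 ∧ x12 = f1 - f2 ∧ y12 = g1 - g2 ∧ x20 = f2 - f0 ∧
    y20 = g2 - g0 := by
  have hx20 : x20 = -x01 - x12 := by
    rw [← sub_eq_zero, ← hx]; abel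
  have hy20 : y20 = -y01 - y12 := by
    rw [← sub_eq_zero, ← hy]; abel
  rcases hn with ⟨rfl, h⟩ | ⟨rfl, h⟩ | ⟨rfl, h⟩ | ⟨rfl, h⟩ | ⟨rfl, h⟩ | ⟨rfl, h⟩
  · simp only [zero_ne_one, OfNat.zero_ne_ofNat, or_self, if_false, true_or, if_true, sub_zero,
      zero_sub] at e0 e1 e2 e0' e1' e2'
    subst e0 e1 e2 e0' e1' e2'
    refine ⟨⟨EY_zero, EZ_zero⟩, ⟨EX_nonneg h, EZ_neg h01⟩, ⟨EX_nonneg h, h20⟩, ?_, ?_, ?_, ?_, ?_, ?_⟩ <;>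
      (try simp only [hx20, hy20]) <;> abel
  · simp at e0 e1 e2 e0' e1' e2'
    subst e0 e1 e2 e0' e1' e2'
    refine ⟨⟨EY_nonneg h, h01⟩, ⟨EX_zero, EZ_zero⟩, ⟨EX_neg h12, EY_nonneg h⟩, ?_, ?_, ?_, ?_, ?_, ?_⟩ <;>
      (try simp only [hx20, hy20]) <;> abel
  · simp at e0 e1 e2 e0' e1' e2'
    subst e0 e1 e2 e0' e1' e2'
    refine ⟨⟨EY_neg h20, EZ_nonneg h⟩, ⟨h12, EZ_nonneg h⟩, ⟨EX_zero, EY_zero⟩, ?_, ?_, ?_, ?_, ?_, ?_⟩ <;>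
      (try simp only [hx20, hy20]) <;> abel
  · simp at e0 e1 e2 e0' e1' e2'
    subst e0 e1 e2 e0' e1' e2'
    obtain ⟨p, q⟩ := h12.1 h
    subst p q
    have h20' : EY b (-f0) (-g0) := by
      rw [hx20, hy20] at h20; simpa using h20
    refine ⟨⟨by simpa using EY_neg h20', h01⟩, ⟨EX_zero, EZ_zero⟩, ⟨EX_zero, EY_zero⟩,
      ?_, ?_, ?_, ?_, ?_, ?_⟩ <;>
      (try simp only [hx20, hy20]) <;> abel
  · simp at e0 e1 e2 e0' e1' e2'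
    subst e0 e1 e2 e0' e1' e2'
    obtain ⟨p, q⟩ := h20.1 h
    have p' : x12 = -x01 := by
      rw [p] at hx20; rw [← sub_eq_zero, sub_neg_eq_add, ← neg_eq_zero, hx20]; abel
    have q' : y12 = -y01 := by
      rw [q] at hy20; rw [← sub_eq_zero, sub_neg_eq_add, ← neg_eq_zero, hy20]; abel
    subst p q p' q'
    refine ⟨⟨EY_zero, EZ_zero⟩, ⟨h12, EZ_neg h01⟩, ⟨EX_zero, EY_zero⟩, ?_, ?_, ?_, ?_, ?_, ?_⟩ <;>
      simp
  · simp at e0 e1 e2 e0' e1' e2'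
    subst e0 e1 e2 e0' e1' e2'
    obtain ⟨p, q⟩ := h01.1 h
    subst p q
    have h12' : EX a f2 g2 := by
      rw [hx20, hy20]; simpa using EX_neg h12
    refine ⟨⟨EY_zero, EZ_zero⟩, ⟨EX_zero, EZ_zero⟩, ⟨h12', h20⟩, ?_, ?_, ?_, ?_, ?_, ?_⟩ <;>
      (try simp only [hx20, hy20]) <;> abel

end TV

theorem tv : T_TV := by
  intro V _ θ01 φ01 θ12 φ12 θ20 φ20 h01 h12 h20 hθ hφ
  have key : ∀ s, _ := fun s => TV.main (θ01 s) (θ12 s) (θ20 s) (φ01 s) (φ12 s) (φ20 s)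
    (expo s 0) (expo s 1) (expo s 2) (h01 s) (h12 s) (h20 s)
    (by simpa using DFunLike.congr_fun hθ s) (by simpa using DFunLike.congr_fun hφ s)
    (TV.cs s) (TV.cases6 s) _ _ _ _ _ _ (TV.F0_apply θ01 θ20 s) (TV.F1_apply θ01 θ12 s)
    (TV.F2_apply θ12 θ20 s) (TV.F0_apply φ01 φ20 s) (TV.F1_apply φ01 φ12 s)
    (TV.F2_apply φ12 φ20 s)
  refine ⟨TV.F0 θ01 θ20, TV.F0 φ01 φ20, TV.F1 θ01 θ12, TV.F1 φ01 φ12, TV.F2 θ12 θ20,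
    TV.F2 φ12 φ20, fun s => (key s).1, fun s => (key s).2.1, fun s => (key s).2.2.1,
    ?_, ?_, ?_, ?_, ?_, ?_⟩
  · ext s; exact (key s).2.2.2.1
  · ext s; exact (key s).2.2.2.2.1
  · ext s; exact (key s).2.2.2.2.2.1
  · ext s; exact (key s).2.2.2.2.2.2.1
  · ext s; exact (key s).2.2.2.2.2.2.2.1
  · ext s; exact (key s).2.2.2.2.2.2.2.2

end Pool.Agent.H1.CM
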